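import Pool.Agent.N666.TM.Turan
import Pool.Agent.R424.MP.Cnt

set_option autoImplicit false
set_option linter.unusedSectionVars false

/-! # Residue classes modulo `p ^ 2` for which a polynomial of degree one in the first variable is
divisible exactly by `p`, and a coprime polynomial is not divisible by `p` -/

namespace Pool.Agent.N514.TH

open Finset Pool.Agent.Y722.HS Pool.Agent.N666.TM
open Pool.Agent.R424.MP (ev CoprimeTo)

variable {s : ℕ}

/-- the value of a polynomial at a point of `(ℤ/m)^(1+s)` -/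
noncomputable def evm (m : ℕ) (ρ : Fin (s + 1) → ZMod m) :
    Polynomial (MvPolynomial (Fin s) ℤ) →+* ZMod m :=
  Polynomial.eval₂RingHom (MvPolynomial.eval₂Hom (Int.castRingHom (ZMod m)) (fun i => ρ i.succ))
    (ρ 0)

theorem ev_cast (m : ℕ) (v : Fin (s + 1) → ℤ) (f : Polynomial (MvPolynomial (Fin s) ℤ)) :
    ((ev (v 0) (fun i => v i.succ) f : ℤ) : ZMod m) = evm m (red m v) f := by
  have h : (Int.castRingHom (ZMod m)).comp (ev (v 0) (fun i => v i.succ)) = evm m (red m v) := by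
    refine Polynomial.ringHom_ext' ?_ ?_
    · refine MvPolynomial.ringHom_ext' ?_ ?_
      · exact RingHom.ext_int _ _
      · intro i
        simp [ev, evm, red]
    · simp [ev, evm, red]
  exact RingHom.congr_fun h f

theorem evm_map (m n : ℕ) (π : ZMod m →+* ZMod n) (ρ : Fin (s + 1) → ZMod m)
    (f : Polynomial (MvPolynomial (Fin s) ℤ)) :
    π (evm m ρ f) = evm n (fun i => π (ρ i)) f := by
  have h : π.comp (evm m ρ) = evm n (fun i => π (ρ i)) := by
    refine Polynomial.ringHom_ext' ?_ ?_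
    · refine MvPolynomial.ringHom_ext' ?_ ?_
      · exact RingHom.ext_int _ _
      · intro i
        simp [evm]
    · simp [evm]
  exact RingHom.congr_fun h f

theorem evm_C (m : ℕ) (ρ : Fin (s + 1) → ZMod m) (f : MvPolynomial (Fin s) ℤ) :
    evm m ρ (Polynomial.C f) = MvPolynomial.eval (fun i => ρ i.succ)
      (MvPolynomial.map (Int.castRingHom (ZMod m)) f) := by
  rw [evm, Polynomial.coe_eval₂RingHom, Polynomial.eval₂_C, MvPolynomial.eval_map]
  rfl

/-- the residue classes -/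
def Om (h G : Polynomial (MvPolynomial (Fin s) ℤ)) (p : ℕ) : Set (Fin (s + 1) → ZMod (p ^ 2)) :=
  {ρ | p ∣ (evm (p ^ 2) ρ h).val ∧ (evm (p ^ 2) ρ h).val ≠ 0 ∧ ¬ p ∣ (evm (p ^ 2) ρ G).val}

/-- the condition on the integral vectors -/
def Ok (h G : Polynomial (MvPolynomial (Fin s) ℤ)) (p : ℕ) (v : Fin (s + 1) → ℤ) : Prop :=
  (p : ℤ) ∣ ev (v 0) (fun i => v i.succ) h ∧ ¬ (p : ℤ) ^ 2 ∣ ev (v 0) (fun i => v i.succ) h ∧
    ¬ (p : ℤ) ∣ ev (v 0) (fun i => v i.succ) G

theorem val_dvd (p : ℕ) (hp : 1 ≤ p) (a : ℤ) : p ∣ ((a : ZMod (p ^ 2))).val ↔ (p : ℤ) ∣ a := by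
  have : NeZero (p ^ 2) := ⟨by positivity⟩
  have h1 : ((((a : ZMod (p ^ 2))).val : ℕ) : ℤ) = a % ((p ^ 2 : ℕ) : ℤ) := ZMod.val_intCast a
  rw [← Int.natCast_dvd_natCast, h1]
  have h2 : a = a % ((p ^ 2 : ℕ) : ℤ) + p * (p * (a / ((p ^ 2 : ℕ) : ℤ))) := by
    have := Int.emod_add_mul_ediv a ((p ^ 2 : ℕ) : ℤ)
    push_cast at this ⊢
    nlinarith
  constructor
  · intro h
    rw [h2]
    exact dvd_add h (Dvd.intro _ rfl)
  · intro h
    rw [h2] at h
    exact (Int.dvd_add_left (Dvd.intro _ rfl)).mp h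

theorem val_ne (p : ℕ) (hp : 1 ≤ p) (a : ℤ) :
    ((a : ZMod (p ^ 2))).val ≠ 0 ↔ ¬ (p : ℤ) ^ 2 ∣ a := by
  have : NeZero (p ^ 2) := ⟨by positivity⟩
  rw [Ne, ZMod.val_eq_zero, ZMod.intCast_zmod_eq_zero_iff_dvd]
  push_cast
  rfl

theorem mem_Om (h G : Polynomial (MvPolynomial (Fin s) ℤ)) (p : ℕ) (hp : 1 ≤ p)
    (v : Fin (s + 1) → ℤ) : red (p ^ 2) v ∈ Om h G p ↔ Ok h G p v := by
  unfold Om Ok
  simp only [Set.mem_ofPred_eq]
  rw [← ev_cast, ← ev_cast, val_dvd p hp, val_dvd p hp, val_ne p hp]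

section count

variable {p : ℕ} [hp : Fact p.Prime]

/-- reduction -/
noncomputable def pr (p : ℕ) : ZMod (p ^ 2) →+* ZMod p :=
  ZMod.castHom (dvd_pow_self p two_ne_zero) (ZMod p)

theorem dvd_val_iff (a : ZMod (p ^ 2)) : p ∣ a.val ↔ pr p a = 0 := by
  have : NeZero (p ^ 2) := ⟨pow_ne_zero _ hp.out.ne_zero⟩
  conv_rhs => rw [← ZMod.natCast_zmod_val a]
  rw [map_natCast, ZMod.natCast_eq_zero_iff]

/-- digits -/
def dig (p : ℕ) (z v : ZMod p) : ZMod (p ^ 2) := ((z.val + p * v.val : ℕ) : ZMod (p ^ 2))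

theorem pr_dig (z v : ZMod p) : pr p (dig p z v) = z := by
  unfold dig
  rw [map_natCast]
  push_cast
  rw [ZMod.natCast_zmod_val]
  simp

theorem dig_inj {z v z' v' : ZMod p} (h : dig p z v = dig p z' v') : z = z' ∧ v = v' := by
  have hpp := hp.out.pos
  have hz : z = z' := by rw [← pr_dig z v, h, pr_dig]
  refine ⟨hz, ?_⟩
  subst hz
  have hlt : ∀ w : ZMod p, z.val + p * w.val < p ^ 2 := by
    intro w
    have h1 := ZMod.val_lt z
    have h2 := ZMod.val_lt w
    have h3 : p * w.val ≤ p * (p - 1) := Nat.mul_le_mul_left _ (by omega)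
    have h4 : p + p * (p - 1) = p ^ 2 := by
      obtain ⟨q, rfl⟩ : ∃ q, p = q + 1 := ⟨p - 1, by omega⟩
      simp only [Nat.add_sub_cancel]
      ring
    omega
  have h1 := congrArg ZMod.val h
  unfold dig at h1
  rw [ZMod.val_natCast_of_lt (hlt v), ZMod.val_natCast_of_lt (hlt v')] at h1
  have h2 : p * v.val = p * v'.val := by omega
  exact ZMod.val_injective p (Nat.eq_of_mul_eq_mul_left hpp h2)

theorem val_pmul (w : ZMod p) : (((p * w.val : ℕ) : ZMod (p ^ 2))).val = p * w.val := by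
  apply ZMod.val_natCast_of_lt
  rw [pow_two]
  exact Nat.mul_lt_mul_of_pos_left (ZMod.val_lt w) hp.out.pos

/-- Schwartz-Zippel -/
theorem nonzeros (Q : MvPolynomial (Fin s) (ZMod p)) (hQ : Q ≠ 0) (d : ℕ) (hd : Q.totalDegree ≤ d) :
    p ^ s * p ≤ (Finset.univ.filter fun z : Fin s → ZMod p => MvPolynomial.eval z Q ≠ 0).card * p +
      d * p ^ s := by
  classical
  have h1 := MvPolynomial.schwartz_zippel_totalDegree hQ (Finset.univ : Finset (ZMod p))
  have hpp : (0 : ℚ≥0) < p := by exact_mod_cast hp.out.pos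
  rw [Finset.card_univ, ZMod.card, div_le_div_iff₀ (by positivity) hpp] at h1
  have h2 : (Finset.univ.filter fun z : Fin s → ZMod p => MvPolynomial.eval z Q = 0).card * p ≤
      Q.totalDegree * p ^ s := by
    have e : (Fintype.piFinset fun _ : Fin s => (Finset.univ : Finset (ZMod p))) = Finset.univ := by
      ext z
      simp
    rw [e] at h1
    exact_mod_cast h1
  have h3 := Finset.card_filter_add_card_filter_not (s := (Finset.univ : Finset (Fin s → ZMod p)))
    (fun z => MvPolynomial.eval z Q = 0)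
  rw [Finset.card_univ, Fintype.card_fun, Fintype.card_fin, ZMod.card] at h3
  have h4 : Q.totalDegree * p ^ s ≤ d * p ^ s := Nat.mul_le_mul_right _ hd
  have h6 := congrArg (fun n => n * p) h3
  simp only [Nat.add_mul] at h6
  have h5 : (Finset.univ.filter fun z : Fin s → ZMod p => ¬ MvPolynomial.eval z Q = 0).card =
    (Finset.univ.filter fun z : Fin s → ZMod p => MvPolynomial.eval z Q ≠ 0).card := rfl
  rw [h5] at h6
  omega

theorem pr_eval (t : Fin s → ZMod (p ^ 2)) (f : MvPolynomial (Fin s) ℤ) :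
    pr p (MvPolynomial.eval t (MvPolynomial.map (Int.castRingHom (ZMod (p ^ 2))) f)) =
      MvPolynomial.eval (fun i => pr p (t i)) (MvPolynomial.map (Int.castRingHom (ZMod p)) f) := by
  have h : (pr p).comp (MvPolynomial.eval₂Hom (Int.castRingHom (ZMod (p ^ 2))) t) =
      MvPolynomial.eval₂Hom (Int.castRingHom (ZMod p)) (fun i => pr p (t i)) := by
    refine MvPolynomial.ringHom_ext' ?_ ?_
    · exact RingHom.ext_int _ _
    · intro i
      simp
  have h1 := RingHom.congr_fun h f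
  rw [MvPolynomial.eval_map, MvPolynomial.eval_map]
  exact h1

theorem isUnit_of_pr (a : ZMod (p ^ 2)) (ha : pr p a ≠ 0) : a * a⁻¹ = 1 := by
  have : NeZero (p ^ 2) := ⟨pow_ne_zero _ hp.out.ne_zero⟩
  have h1 : a.val.Coprime (p ^ 2) := by
    refine Nat.Coprime.pow_right 2 ?_
    rw [Nat.coprime_comm, hp.out.coprime_iff_not_dvd, dvd_val_iff]
    exact ha
  have h2 := ZMod.coe_mul_inv_eq_one a.val h1
  rwa [ZMod.natCast_zmod_val] at h2

/-- the number of the residue classes -/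
theorem card_Om (h G : Polynomial (MvPolynomial (Fin s) ℤ)) (hdeg : h.natDegree = 1)
    {a b : Polynomial (MvPolynomial (Fin s) ℤ)} {R : MvPolynomial (Fin s) ℤ}
    (hab : a * h + b * G = Polynomial.C R) :
    (p - 1) * (Finset.univ.filter fun z : Fin s → ZMod p => MvPolynomial.eval z
      (MvPolynomial.map (Int.castRingHom (ZMod p)) (R * h.coeff 1)) ≠ 0).card * p ^ s ≤
        (Om h G p).ncard := by
  classical
  have : NeZero (p ^ 2) := ⟨pow_ne_zero _ hp.out.ne_zero⟩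
  have hA : h = Polynomial.C (h.coeff 1) * Polynomial.X + Polynomial.C (h.coeff 0) :=
    Polynomial.eq_X_add_C_of_natDegree_le_one hdeg.le
  set A := h.coeff 1 with hAdef
  set B := h.coeff 0 with hBdef
  let evA : (Fin s → ZMod (p ^ 2)) → ZMod (p ^ 2) := fun t =>
    MvPolynomial.eval t (MvPolynomial.map (Int.castRingHom (ZMod (p ^ 2))) A)
  let evB : (Fin s → ZMod (p ^ 2)) → ZMod (p ^ 2) := fun t =>
    MvPolynomial.eval t (MvPolynomial.map (Int.castRingHom (ZMod (p ^ 2))) B)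
  have hev : ∀ (x : ZMod (p ^ 2)) (t : Fin s → ZMod (p ^ 2)),
      evm (p ^ 2) (Fin.cons x t : Fin (s + 1) → ZMod (p ^ 2)) h = evA t * x + evB t := by
    intro x t
    rw [hA, map_add, map_mul, evm_C, evm_C]
    have h1 : evm (p ^ 2) (Fin.cons x t : Fin (s + 1) → ZMod (p ^ 2)) Polynomial.X = x := by
      simp [evm]
    rw [h1]
    simp only [Fin.cons_succ]
    rfl
  let Z : Finset (Fin s → ZMod p) := Finset.univ.filter fun z : Fin s → ZMod p =>
    MvPolynomial.eval z (MvPolynomial.map (Int.castRingHom (ZMod p)) (R * A)) ≠ 0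
  let W : Finset (ZMod p) := Finset.univ.erase 0
  let Dm : Finset (ZMod p × (Fin s → ZMod p) × (Fin s → ZMod p)) := W ×ˢ (Z ×ˢ Finset.univ)
  let tt : (Fin s → ZMod p) → (Fin s → ZMod p) → (Fin s → ZMod (p ^ 2)) := fun z v i =>
    dig p (z i) (v i)
  let F : ZMod p × (Fin s → ZMod p) × (Fin s → ZMod p) → (Fin (s + 1) → ZMod (p ^ 2)) := fun q =>
    Fin.cons ((((p * q.1.val : ℕ) : ZMod (p ^ 2)) - evB (tt q.2.1 q.2.2)) * (evA (tt q.2.1 q.2.2))⁻¹)
      (tt q.2.1 q.2.2)
  have hprt : ∀ z v, (fun i => pr p (tt z v i)) = z := fun z v => funext fun i => pr_dig _ _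
  have hZ : ∀ z ∈ Z, ∀ v, pr p (evA (tt z v)) ≠ 0 ∧
      MvPolynomial.eval z (MvPolynomial.map (Int.castRingHom (ZMod p)) R) ≠ 0 := by
    intro z hz v
    have h1 := (Finset.mem_filter.mp hz).2
    rw [map_mul, map_mul] at h1
    refine ⟨?_, left_ne_zero_of_mul h1⟩
    have h2 := right_ne_zero_of_mul h1
    change pr p (MvPolynomial.eval (tt z v) (MvPolynomial.map (Int.castRingHom (ZMod (p ^ 2))) A)) ≠ 0
    rw [pr_eval, hprt]
    exact h2
  have hval : ∀ q ∈ Dm, evm (p ^ 2) (F q) h = ((p * q.1.val : ℕ) : ZMod (p ^ 2)) := by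
    rintro ⟨w, z, v⟩ hq
    obtain ⟨h1, h2⟩ := Finset.mem_product.mp hq
    obtain ⟨h3, h4⟩ := Finset.mem_product.mp h2
    have h5 := (hZ z h3 v).1
    have h6 := isUnit_of_pr _ h5
    change evm (p ^ 2) (Fin.cons ((((p * w.val : ℕ) : ZMod (p ^ 2)) - evB (tt z v)) *
      (evA (tt z v))⁻¹) (tt z v) : Fin (s + 1) → ZMod (p ^ 2)) h = _
    rw [hev]
    calc evA (tt z v) * ((((p * w.val : ℕ) : ZMod (p ^ 2)) - evB (tt z v)) * (evA (tt z v))⁻¹) +
          evB (tt z v) = (evA (tt z v) * (evA (tt z v))⁻¹) *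
            (((p * w.val : ℕ) : ZMod (p ^ 2)) - evB (tt z v)) + evB (tt z v) := by ring
      _ = ((p * w.val : ℕ) : ZMod (p ^ 2)) := by rw [h6]; ring
  have hmem : ∀ q ∈ Dm, F q ∈ Om h G p := by
    intro q hq
    have h0 := hval q hq
    obtain ⟨w, z, v⟩ := q
    obtain ⟨h1, h2⟩ := Finset.mem_product.mp hq
    obtain ⟨h3, h4⟩ := Finset.mem_product.mp h2
    have hw : w ≠ 0 := (Finset.mem_erase.mp h1).1
    refine ⟨?_, ?_, ?_⟩
    · rw [h0, val_pmul]
      exact Dvd.intro _ rfl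
    · rw [h0, val_pmul]
      refine Nat.mul_ne_zero hp.out.ne_zero ?_
      rw [Ne, ZMod.val_eq_zero]
      exact hw
    · intro hd
      have h5 : pr p (evm (p ^ 2) (F (w, z, v)) G) = 0 := (dvd_val_iff _).mp hd
      have h6 : pr p (evm (p ^ 2) (F (w, z, v)) h) = 0 := by
        rw [← dvd_val_iff, h0, val_pmul]
        exact Dvd.intro _ rfl
      have h7 := congrArg (fun f => pr p (evm (p ^ 2) (F (w, z, v)) f)) hab
      simp only [map_add, map_mul, h5, h6, mul_zero, add_zero] at h7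
      rw [evm_C, pr_eval] at h7
      apply (hZ z h3 v).2
      rw [h7]
      congr 1
      congr 1
      funext i
      change z i = pr p ((Fin.cons _ (tt z v) : Fin (s + 1) → ZMod (p ^ 2)) i.succ)
      rw [Fin.cons_succ]
      exact (pr_dig _ _).symm
  have hinj : Set.InjOn F Dm := by
    intro q hq q' hq' hF
    have h0 := hval q hq
    have h0' := hval q' hq'
    rw [hF, h0'] at h0
    obtain ⟨w, z, v⟩ := q
    obtain ⟨w', z', v'⟩ := q'
    have h1 : ∀ i, dig p (z i) (v i) = dig p (z' i) (v' i) := by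
      intro i
      have h2 := congrFun hF i.succ
      change (Fin.cons _ (tt z v) : Fin (s + 1) → ZMod (p ^ 2)) i.succ =
        (Fin.cons _ (tt z' v') : Fin (s + 1) → ZMod (p ^ 2)) i.succ at h2
      rw [Fin.cons_succ, Fin.cons_succ] at h2
      exact h2
    have h3 : z = z' := funext fun i => (dig_inj (h1 i)).1
    have h4 : v = v' := funext fun i => (dig_inj (h1 i)).2
    have h5 : w = w' := by
      have h6 := congrArg ZMod.val h0
      simp only at h6
      rw [val_pmul, val_pmul] at h6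
      exact (ZMod.val_injective p (Nat.eq_of_mul_eq_mul_left hp.out.pos h6)).symm
    rw [h3, h4, h5]
  have hcard : Dm.card = (p - 1) * Z.card * p ^ s := by
    rw [Finset.card_product, Finset.card_product, Finset.card_erase_of_mem (Finset.mem_univ _),
      Finset.card_univ, Finset.card_univ, ZMod.card, Fintype.card_fun, Fintype.card_fin, ZMod.card]
    ring
  calc _ = Dm.card := hcard.symm
    _ = (Dm.image F).card := (Finset.card_image_of_injOn hinj).symm
    _ = ((Dm.image F : Finset _) : Set (Fin (s + 1) → ZMod (p ^ 2))).ncard := by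
        rw [Set.ncard_coe_finset]
    _ ≤ (Om h G p).ncard := by
        refine Set.ncard_le_ncard ?_ (Set.toFinite _)
        rintro _ hx
        obtain ⟨q, hq, rfl⟩ := Finset.mem_image.mp (Finset.mem_coe.mp hx)
        exact hmem q hq

end count

/-- the density is at least `1 / (4 p)` for large `p` -/
theorem dens_Om (h G : Polynomial (MvPolynomial (Fin s) ℤ)) (hdeg : h.natDegree = 1)
    (hcop : CoprimeTo h G) : ∃ p₀ : ℕ, ∀ p : ℕ, p.Prime → p₀ < p →
      1 / 4 * (1 / (p : ℝ)) ≤ dens (Om h G p) := by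
  classical
  obtain ⟨a, b, R, hR, hab⟩ := hcop
  have hA0 : h.coeff 1 ≠ 0 := by
    intro h0
    have h1 : h.leadingCoeff = 0 := by rw [Polynomial.leadingCoeff, hdeg]; exact h0
    rw [Polynomial.leadingCoeff_eq_zero] at h1
    rw [h1, Polynomial.natDegree_zero] at hdeg
    exact zero_ne_one hdeg
  set Q := R * h.coeff 1 with hQ
  have hQ0 : Q ≠ 0 := mul_ne_zero hR hA0
  obtain ⟨m, hm⟩ := MvPolynomial.ne_zero_iff.mp hQ0
  set d := Q.totalDegree with hd
  refine ⟨2 * d + (Q.coeff m).natAbs + 2, fun p hp hp0 => ?_⟩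
  have : Fact p.Prime := ⟨hp⟩
  set Qp := MvPolynomial.map (Int.castRingHom (ZMod p)) Q with hQp
  have hQp0 : Qp ≠ 0 := by
    rw [MvPolynomial.ne_zero_iff]
    refine ⟨m, ?_⟩
    rw [hQp, MvPolynomial.coeff_map]
    intro h0
    have h1 : (((Q.coeff m : ℤ)) : ZMod p) = 0 := h0
    rw [ZMod.intCast_zmod_eq_zero_iff_dvd] at h1
    have h2 := Int.natAbs_dvd_natAbs.mpr h1
    rw [Int.natAbs_natCast] at h2
    have h3 := Nat.le_of_dvd (Int.natAbs_pos.mpr hm) h2
    omega
  have hdeg' : Qp.totalDegree ≤ d := by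
    rw [hQp, hd]
    refine Finset.sup_mono ?_
    exact MvPolynomial.support_map_subset _ _
  have h1 := nonzeros Qp hQp0 d hdeg'
  have h2 := card_Om (p := p) h G hdeg hab
  set Zc := (Finset.univ.filter fun z : Fin s → ZMod p => MvPolynomial.eval z Qp ≠ 0).card with hZc
  have h1R : (p : ℝ) ^ s * p ≤ Zc * p + d * (p : ℝ) ^ s := by exact_mod_cast h1
  have hp1 : 1 ≤ p := hp.one_lt.le
  have h2R : ((p : ℝ) - 1) * Zc * (p : ℝ) ^ s ≤ (Om h G p).ncard := by
    have h3 : (((p - 1 : ℕ) * Zc * p ^ s : ℕ) : ℝ) ≤ (Om h G p).ncard := by exact_mod_cast h2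
    rw [Nat.cast_mul, Nat.cast_mul, Nat.cast_sub hp1, Nat.cast_one, Nat.cast_pow] at h3
    exact h3
  have hpR : (0 : ℝ) < p := by exact_mod_cast hp.pos
  have hp2 : (2 : ℝ) ≤ p := by exact_mod_cast hp.two_le
  have hpd : 2 * (d : ℝ) ≤ p := by
    have : 2 * d ≤ p := by omega
    exact_mod_cast this
  unfold Pool.Agent.N666.TM.dens
  rw [Fintype.card_fin, le_div_iff₀ (by positivity)]
  refine le_trans ?_ h2R
  have hZ2 : (p : ℝ) ^ s / 2 ≤ Zc := by
    have h3 : (d : ℝ) * (p : ℝ) ^ s ≤ p / 2 * (p : ℝ) ^ s := by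
      have : (0 : ℝ) ≤ (p : ℝ) ^ s := by positivity
      nlinarith
    have h4 : (p : ℝ) ^ s / 2 * p ≤ Zc * p := by nlinarith
    exact le_of_mul_le_mul_right h4 hpR
  have e : (1 : ℝ) / 4 * (1 / p) * ((p ^ 2 : ℕ) : ℝ) ^ (s + 1) = (p / 2) * ((p : ℝ) ^ s / 2) * (p : ℝ) ^ s := by
    push_cast
    rw [pow_succ, ← pow_mul, mul_comm 2 s, pow_mul]
    field_simp
    ring
  rw [e]
  have h5 : (p : ℝ) / 2 ≤ (p : ℝ) - 1 := by linarith
  have h6 : 0 ≤ (p : ℝ) - 1 := by linarith
  gcongr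

end Pool.Agent.N514.TH
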