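import Pool.Agent.N924.TH.Null
import Pool.Agent.N514.TH.Dens

set_option autoImplicit false
set_option linter.unusedSectionVars false

/-! # Exact prime divisors: one null set for all pairs of coprime polynomials and arbitrary uniformly
distributed sequences -/

namespace Pool.Agent.N514.TH.Ex

open Finset Filter Pool.Agent.Y722.HS Pool.Agent.N666.TM
open Pool.Agent.R424.MP (ev CoprimeTo)
open Pool.Agent.N666.VE (primes)
open Pool.Agent.N924.TH (UD)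

section
variable {ι : Type} [Fintype ι] [DecidableEq ι]

/-- Turan's sieve with classes modulo `p ^ 2` of density at least `c / p`. -/
theorem sieve {S : ℕ → Finset ℕ} {x : ℕ → ι → ℤ}
    (hw : ∀ H : ℕ, ∃ N₀ : ℕ, ∀ N : ℕ, N₀ ≤ N → Well (S N) x H)
    (Ω : ∀ p : ℕ, Set (ι → ZMod (p ^ 2))) (c : ℝ) (hc : 0 < c) (p₀ : ℕ)
    (hΩ : ∀ p : ℕ, p.Prime → p₀ < p → c * (1 / (p : ℝ)) ≤ Pool.Agent.N666.TM.dens (Ω p))
    (D : ℕ) (ε : ℝ) (hε : 0 < ε) : ∃ N₀ : ℕ, ∀ N : ℕ, N₀ ≤ N →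
      ({n : ℕ | n ∈ S N ∧ ¬ ∃ p : ℕ, p.Prime ∧ D < p ∧ red (p ^ 2) (x n) ∈ Ω p}.ncard : ℝ) ≤
        ε * (S N).card := by
  classical
  set D' : ℕ := D + p₀ with hD'
  set ε' : ℝ := ε / 2 with hε'
  have hε'0 : 0 < ε' := by positivity
  -- the primes
  obtain ⟨y, hy⟩ : ∃ y : ℕ, 1 / c * (2 / ε') ≤ ∑ p ∈ (Finset.range y).filter Nat.Prime,
      (if D' < p then 1 / (p : ℝ) else 0) := by
    have hns : ¬ Summable (fun p : ℕ => if p.Prime then (if D' < p then 1 / (p : ℝ) else 0) else 0) := by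
      intro hsum
      apply not_summable_one_div_on_primes
      refine (summable_congr_cofinite ?_).mp hsum
      rw [Filter.eventuallyEq_iff_exists_mem]
      refine ⟨{p | D' < p}, ?_, ?_⟩
      · rw [Nat.cofinite_eq_atTop]
        exact Ioi_mem_atTop D'
      · intro p hp
        simp only [Set.mem_ofPred_eq] at hp
        by_cases h : p.Prime
        · simp [Set.indicator, h, hp]
        · simp [Set.indicator, h]
    have hnn : ∀ p : ℕ, 0 ≤ (if p.Prime then (if D' < p then 1 / (p : ℝ) else 0) else 0) := by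
      intro p
      split_ifs <;> positivity
    have ht := (not_summable_iff_tendsto_nat_atTop_of_nonneg hnn).mp hns
    obtain ⟨y, hy⟩ := (ht.eventually_ge_atTop (1 / c * (2 / ε'))).exists
    refine ⟨y, ?_⟩
    rw [Finset.sum_filter]
    exact hy
  set P : Finset ℕ := ((Finset.range y).filter Nat.Prime).filter (fun p => D' < p) with hP
  have hPsum : 1 / c * (2 / ε') ≤ ∑ p ∈ P, 1 / (p : ℝ) := by
    rw [hP, Finset.sum_filter]
    exact hy
  have hPm : ∀ p ∈ P, p < y ∧ p.Prime ∧ D' < p := by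
    intro p hp
    simp only [hP, Finset.mem_filter, Finset.mem_range] at hp
    exact ⟨hp.1.1, hp.1.2, hp.2⟩
  -- large N
  set H : ℕ := y ^ 4 + ⌈4 / ε'⌉₊ with hH
  obtain ⟨N₁, hN₁⟩ := hw H
  refine ⟨N₁, fun N hN => ?_⟩
  have hws := hN₁ N hN
  have hμ : 2 / ε' ≤ ∑ p ∈ P, Pool.Agent.N666.TM.dens (Ω p) := by
    calc 2 / ε' = c * (1 / c * (2 / ε')) := by field_simp
      _ ≤ c * ∑ p ∈ P, 1 / (p : ℝ) := by gcongr
      _ = ∑ p ∈ P, c * (1 / (p : ℝ)) := by rw [Finset.mul_sum]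
      _ ≤ _ := Finset.sum_le_sum fun p hp => hΩ p (hPm p hp).2.1 (by
          have := (hPm p hp).2.2
          omega)
  have hμ0 : 0 < ∑ p ∈ P, Pool.Agent.N666.TM.dens (Ω p) := lt_of_lt_of_le (by positivity) hμ
  have h1 := turan hws P (fun p => p ^ 2) (fun p hp => Nat.pos_of_ne_zero (by
      have := (hPm p hp).2.1.pos
      positivity)) (fun p hp p' hp' hne =>
      Nat.Coprime.pow 2 2 ((Nat.coprime_primes (hPm p hp).2.1 (hPm p' hp').2.1).mpr hne))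
    (fun p hp p' hp' => by
      have a1 := (hPm p hp).1.le
      have a2 := (hPm p' hp').1.le
      calc p ^ 2 * p' ^ 2 ≤ y ^ 2 * y ^ 2 := Nat.mul_le_mul (Nat.pow_le_pow_left a1 2)
            (Nat.pow_le_pow_left a2 2)
        _ = y ^ 4 := by ring
        _ ≤ 2 * H + 1 := by rw [hH]; omega) Ω _ rfl hμ0
  have h2 : 2 / (∑ p ∈ P, Pool.Agent.N666.TM.dens (Ω p)) ≤ ε' := by
    rw [div_le_iff₀ hμ0]
    rw [div_le_iff₀ hε'0] at hμ
    linarith
  have h3 : (4 : ℝ) / (2 * H + 1) ≤ ε' := by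
    have h4 : 4 / ε' ≤ H := by
      have : ((⌈4 / ε'⌉₊ : ℕ) : ℝ) ≤ H := by
        rw [hH]
        exact_mod_cast Nat.le_add_left _ _
      exact (Nat.le_ceil _).trans this
    rw [div_le_iff₀ (by positivity)]
    rw [div_le_iff₀ hε'0] at h4
    nlinarith
  have h5 : ({n : ℕ | n ∈ S N ∧ ¬ ∃ p : ℕ, p.Prime ∧ D < p ∧ red (p ^ 2) (x n) ∈ Ω p}.ncard : ℝ) ≤
      ((S N).filter fun n => ∀ p ∈ P, red (p ^ 2) (x n) ∉ Ω p).card := by
    have h6 : {n : ℕ | n ∈ S N ∧ ¬ ∃ p : ℕ, p.Prime ∧ D < p ∧ red (p ^ 2) (x n) ∈ Ω p} ⊆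
        (((S N).filter fun n => ∀ p ∈ P, red (p ^ 2) (x n) ∉ Ω p : Finset ℕ) : Set ℕ) := by
      rintro n ⟨hn, hno⟩
      rw [Finset.mem_coe, Finset.mem_filter]
      refine ⟨hn, fun p hp hin => hno ⟨p, (hPm p hp).2.1, ?_, hin⟩⟩
      have := (hPm p hp).2.2
      omega
    have := Set.ncard_le_ncard h6 (Finset.finite_toSet _)
    rw [Set.ncard_coe_finset] at this
    exact_mod_cast this
  refine h5.trans (h1.trans ?_)
  have h7 : 2 / (∑ p ∈ P, Pool.Agent.N666.TM.dens (Ω p)) + 4 / (2 * (H : ℝ) + 1) ≤ ε := by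
    rw [hε'] at h2 h3
    linarith
  gcongr

end

theorem nullIn_mono {S : ℕ → Finset ℕ} {E E' : Set ℕ} (h : E ⊆ E') (hE : NullIn S E') :
    NullIn S E := by
  intro ε hε
  obtain ⟨N₀, hN₀⟩ := hE ε hε
  refine ⟨N₀, fun N hN => le_trans ?_ (hN₀ N hN)⟩
  exact_mod_cast Set.ncard_le_ncard (s := {t : ℕ | t ∈ S N ∧ t ∈ E})
    (t := {t : ℕ | t ∈ S N ∧ t ∈ E'}) (fun t ht => ⟨ht.1, h ht.2⟩)
    ((S N).finite_toSet.subset fun t ht => ht.1)

theorem nullIn_union {S : ℕ → Finset ℕ} {E E' : Set ℕ} (h : NullIn S E) (h' : NullIn S E') :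
    NullIn S (E ∪ E') := by
  intro ε hε
  obtain ⟨N₀, hN₀⟩ := h (ε / 2) (by positivity)
  obtain ⟨N₁, hN₁⟩ := h' (ε / 2) (by positivity)
  refine ⟨max N₀ N₁, fun N hN => ?_⟩
  have h1 := hN₀ N ((le_max_left _ _).trans hN)
  have h2 := hN₁ N ((le_max_right _ _).trans hN)
  have h3 : {t : ℕ | t ∈ S N ∧ t ∈ E ∪ E'} = {t : ℕ | t ∈ S N ∧ t ∈ E} ∪ {t : ℕ | t ∈ S N ∧ t ∈ E'} := by
    ext t
    simp only [Set.mem_ofPred_eq, Set.mem_union]
    tauto
  rw [h3]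
  have h4 : (({t : ℕ | t ∈ S N ∧ t ∈ E} ∪ {t : ℕ | t ∈ S N ∧ t ∈ E'}).ncard : ℝ) ≤
      {t : ℕ | t ∈ S N ∧ t ∈ E}.ncard + {t : ℕ | t ∈ S N ∧ t ∈ E'}.ncard := by
    exact_mod_cast Set.ncard_union_le _ _
  linarith

theorem nullIn_iUnion {S : ℕ → Finset ℕ} {E : ℕ → Set ℕ} (h : ∀ j, NullIn S (E j)) (k : ℕ) :
    NullIn S {t | ∃ j ≤ k, t ∈ E j} := by
  induction k with
  | zero => exact nullIn_mono (fun t ⟨j, hj, ht⟩ => by
      have : j = 0 := by omega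
      subst this
      exact ht) (h 0)
  | succ k ih =>
    refine nullIn_mono ?_ (nullIn_union ih (h (k + 1)))
    rintro t ⟨j, hj, ht⟩
    rcases Nat.lt_or_ge j (k + 1) with h1 | h1
    · exact Or.inl ⟨j, by omega, ht⟩
    · have : j = k + 1 := by omega
      subst this
      exact Or.inr ht

/-- the data: a number of variables, distinct generalised polynomials, two polynomials -/
structure Dat where
  s : ℕ
  j : Fin (s + 1) ↪ ℕ
  h : Polynomial (MvPolynomial (Fin s) ℤ)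
  G : Polynomial (MvPolynomial (Fin s) ℤ)
  deg : h.natDegree = 1
  cop : CoprimeTo h G

theorem countable_mv (s : ℕ) : Countable (MvPolynomial (Fin s) ℤ) := by
  rw [← Cardinal.mk_le_aleph0_iff]
  refine MvPolynomial.cardinalMk_le_max.trans ?_
  simp

theorem countable_poly (s : ℕ) : Countable (Polynomial (MvPolynomial (Fin s) ℤ)) := by
  have := countable_mv s
  rw [← Cardinal.mk_le_aleph0_iff]
  refine Polynomial.cardinalMk_le_max.trans ?_
  simp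

instance : Countable Dat := by
  have := countable_poly
  have h0 : ∀ s : ℕ, Countable (Fin (s + 1) ↪ ℕ) := fun s =>
    (DFunLike.coe_injective (F := Fin (s + 1) ↪ ℕ)).countable
  have h1 : Function.Injective (fun d : Dat => (⟨d.s, d.j, d.h, d.G⟩ :
      Σ s : ℕ, (Fin (s + 1) ↪ ℕ) × Polynomial (MvPolynomial (Fin s) ℤ) ×
        Polynomial (MvPolynomial (Fin s) ℤ))) := by
    rintro ⟨s, j, h, G, h1, h2⟩ ⟨s', j', h', G', h1', h2'⟩ heq
    simp only [Sigma.mk.injEq] at heq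
    obtain ⟨rfl, h3⟩ := heq
    have h4 := eq_of_heq h3
    simp only [Prod.mk.injEq] at h4
    obtain ⟨rfl, rfl, rfl⟩ := h4
    rfl
  exact h1.countable

instance : Nonempty Dat :=
  ⟨{ s := 0, j := ⟨fun i => i, Fin.val_injective⟩, h := Polynomial.X, G := 1,
     deg := Polynomial.natDegree_X, cop := ⟨0, 1, 1, one_ne_zero, by simp⟩ }⟩

/-- there is a prime above `D` which divides `h` exactly and does not divide `G` -/
def Good (z : ℕ → ℕ → ℤ) (d : Dat) (D t : ℕ) : Prop :=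
  ∃ p : ℕ, p.Prime ∧ D < p ∧ Ok d.h d.G p (fun i => z (d.j i) t)

theorem null_one {S : ℕ → Finset ℕ} {z : ℕ → ℕ → ℤ} (hz : UD S z) (d : Dat) (D : ℕ) :
    NullIn S {t | ¬ Good z d D t} := by
  classical
  obtain ⟨p₀, hp₀⟩ := dens_Om d.h d.G d.deg d.cop
  intro ε hε
  obtain ⟨N₀, hN₀⟩ := sieve (fun H => hz.well d.j.injective H) (fun p => Om d.h d.G p) (1 / 4)
    (by norm_num) p₀ hp₀ D ε hε
  refine ⟨N₀, fun N hN => le_trans ?_ (hN₀ N hN)⟩
  have hsub : {t : ℕ | t ∈ S N ∧ t ∈ {t | ¬ Good z d D t}} ⊆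
      {n : ℕ | n ∈ S N ∧ ¬ ∃ p : ℕ, p.Prime ∧ D < p ∧
        red (p ^ 2) (fun i : Fin (d.s + 1) => z (d.j i) n) ∈ Om d.h d.G p} := by
    rintro t ⟨ht, hg⟩
    refine ⟨ht, ?_⟩
    rintro ⟨p, hp, hDp, hin⟩
    exact hg ⟨p, hp, hDp, (mem_Om d.h d.G p hp.one_lt.le _).mp hin⟩
  exact_mod_cast Set.ncard_le_ncard hsub ((Finset.finite_toSet _).subset fun t ht => ht.1)

/-- One set of density zero for all pairs of coprime polynomials. -/
theorem engine {S₁ S₂ : ℕ → Finset ℕ} (hS₁ : ∀ N, S₁ N ⊆ Ioc N (2 * N))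
    (hS₂ : ∀ N, S₂ N ⊆ Ioc N (2 * N)) {z : ℕ → ℕ → ℤ} (hz₁ : UD S₁ z) (hz₂ : UD S₂ z) :
    ∃ E : Set ℕ, NullIn S₁ E ∧ NullIn S₂ E ∧
      ∀ (d : Dat) (D : ℕ), {t : ℕ | t ∉ E ∧ ¬ Good z d D t}.Finite := by
  classical
  obtain ⟨f, hf⟩ := exists_surjective_nat Dat
  have hmono : Monotone (fun k : ℕ => {t : ℕ | ∃ j ≤ k, t ∈ {t | ¬ Good z (f j) k t}}) := by
    rintro k k' hkk t ⟨j, hj, ht⟩
    refine ⟨j, by omega, fun hg => ht ?_⟩
    obtain ⟨p, h1, h2, h3⟩ := hg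
    exact ⟨p, h1, by omega, h3⟩
  obtain ⟨E, h1, h2, h3⟩ := diag hmono hS₁ hS₂
    (fun k => nullIn_iUnion (E := fun j => {t | ¬ Good z (f j) k t})
      (fun j => null_one hz₁ (f j) k) k)
    (fun k => nullIn_iUnion (E := fun j => {t | ¬ Good z (f j) k t})
      (fun j => null_one hz₂ (f j) k) k)
  refine ⟨E, h1, h2, fun d D => ?_⟩
  obtain ⟨j, rfl⟩ := hf d
  refine (h3 (max j D)).subset ?_
  rintro t ⟨ht, ht'⟩
  refine ⟨⟨j, le_max_left _ _, fun hg => ht' ?_⟩, ht⟩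
  obtain ⟨p, h4, h5, h6⟩ := hg
  exact ⟨p, h4, lt_of_le_of_lt (le_max_right _ _) h5, h6⟩

end Pool.Agent.N514.TH.Ex
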