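import Pool.Agent.N514.TH.Exact
import Pool.Agent.R424.MP.Pink

set_option autoImplicit false

/-! # Pink's conjecture for the members with thin parameters -/

namespace Pool.Agent.N514.TH

open Finset MvPolynomial Pool.Agent.R424.TG Pool.Agent.R424.PT Pool.Agent.R424.MP
open Pool.Agent.N666.TM (NullIn flo)
open Pool.Agent.N666.VE (primes)
open Pool.Agent.N924.TH (UD)
open Pool.Agent.Results.MP_28d749_ag.RandomMultisections (curve)

/-- the local criterion for one member -/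
theorem member {s r q N m M : ℕ} {κ : Type} [Finite κ]
    (supp : κ → Finset ((Coord r q ⊕ Fin N) →₀ ℕ))
    (c : κ → ((Coord r q ⊕ Fin N) →₀ ℕ) → Polynomial (MvPolynomial (Fin s) ℤ))
    (h : Fin M → Polynomial (MvPolynomial (Fin s) ℤ))
    (e : Fin M → κ → ((Coord r q ⊕ Fin N) →₀ ℕ) → ℕ)
    (he : ∀ l j, ∀ β ∈ supp j, HasOrd (h l) (c j β) (e l j β)) (hgen : GenericP m supp e) :
    ∃ G : Fin M → Polynomial (MvPolynomial (Fin s) ℤ), (∀ l, CoprimeTo (h l) (G l)) ∧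
      ∀ (x : ℤ) (t : Fin s → ℤ), (∀ l, ∃ p : ℕ, p.Prime ∧ (p : ℤ) ∣ ev x t (h l) ∧
        ¬ (p : ℤ) ^ 2 ∣ ev x t (h l) ∧ ¬ (p : ℤ) ∣ ev x t (G l)) →
      NoAtypicalP m (OnX supp (fun j β => ((ev x t (c j β) : ℤ) : ℂ)) :
          ∀ x : Fin 2 ⊕ Fin r → ℂ, (Fin q → (curve (x (Sum.inl 0)) (x (Sum.inl 1))).Point) →
            Prop) := by
  classical
  have := Fintype.ofFinite κ
  let ι := Σ j : κ, {β // β ∈ supp j}
  have hg : ∀ (l : Fin M) (x : ι), ∃ g, c x.1 x.2 = h l ^ e l x.1 x.2 * g ∧ CoprimeTo (h l) g :=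
    fun l x => he l x.1 _ x.2.2
  choose g hg1 hg2 using hg
  refine ⟨fun l => ∏ x : ι, g l x, fun l => CoprimeTo.prod _ _ (hg2 l), fun x t hgood => ?_⟩
  choose p hp hph hp2 hpG using hgood
  refine coreP m supp _ e hgen p hp fun l j β hβ V hV => ?_
  have h1 := hg1 l ⟨j, β, hβ⟩
  have h2 : ¬ (p l : ℤ) ∣ ev x t (g l ⟨j, β, hβ⟩) := by
    intro h3
    apply hpG l
    rw [map_prod]
    exact h3.trans (Finset.dvd_prod_of_mem _ (Finset.mem_univ (⟨j, β, hβ⟩ : ι)))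
  have h3 : ev x t (c j β) = ev x t (h l) ^ e l j β * ev x t (g l ⟨j, β, hβ⟩) := by
    rw [h1, map_mul, map_pow]
  obtain ⟨u, hu⟩ := hph l
  have hpu : ¬ (p l : ℤ) ∣ u := by
    rintro ⟨u', rfl⟩
    exact hp2 l ⟨u', by rw [hu]; ring⟩
  have h4 : V.valuation ((ev x t (h l) : ℤ) : ℂ) = V.valuation (p l : ℂ) := by
    rw [hu]
    push_cast
    rw [map_mul, Pool.Agent.W466.ZP.int_unit V (hp l) hV _ hpu, mul_one]
  rw [h3]
  push_cast
  rw [map_mul, map_pow, h4, Pool.Agent.W466.ZP.int_unit V (hp l) hV _ h2, mul_one]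

/-- Pink's conjecture for the members with uniformly distributed parameters outside one null set. -/
theorem pinkNull {S₁ S₂ : ℕ → Finset ℕ} (hS₁ : ∀ N, S₁ N ⊆ Ioc N (2 * N))
    (hS₂ : ∀ N, S₂ N ⊆ Ioc N (2 * N)) {z : ℕ → ℕ → ℤ} (hz₁ : UD S₁ z) (hz₂ : UD S₂ z) :
    ∃ E : Set ℕ, NullIn S₁ E ∧ NullIn S₂ E ∧
      ∀ (κ : Type) [Finite κ] (s r q N m M : ℕ) (j : Fin (s + 1) → ℕ) (_ : Function.Injective j)
        (supp : κ → Finset ((Coord r q ⊕ Fin N) →₀ ℕ))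
        (b : κ → ((Coord r q ⊕ Fin N) →₀ ℕ) → Polynomial (MvPolynomial (Fin s) ℤ))
        (h : Fin M → Polynomial (MvPolynomial (Fin s) ℤ)) (_ : ∀ l, (h l).natDegree = 1)
        (e : Fin M → κ → ((Coord r q ⊕ Fin N) →₀ ℕ) → ℕ)
        (_ : ∀ l k, ∀ β ∈ supp k, HasOrd (h l) (b k β) (e l k β)) (_ : GenericP m supp e),
        {n : ℕ | n ∉ E ∧ ¬ NoAtypicalP m (OnX supp (fun k β =>
          ((ev (z (j 0) n) (fun i => z (j i.succ) n) (b k β) : ℤ) : ℂ)) :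
          ∀ x : Fin 2 ⊕ Fin r → ℂ, (Fin q → (curve (x (Sum.inl 0)) (x (Sum.inl 1))).Point) →
            Prop)}.Finite := by
  classical
  obtain ⟨E, h1, h2, h3⟩ := Ex.engine hS₁ hS₂ hz₁ hz₂
  refine ⟨E, h1, h2, ?_⟩
  intro κ _ s r q N m M j hj supp b h hdeg e he hgen
  obtain ⟨G, hG, hmem⟩ := member supp b h e he hgen
  let d : Fin M → Ex.Dat := fun l => ⟨s, ⟨j, hj⟩, h l, G l, hdeg l, hG l⟩
  refine (Set.finite_iUnion fun l => h3 (d l) 0).subset ?_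
  rintro n ⟨hn, hno⟩
  by_contra hcon
  apply hno
  refine hmem _ _ fun l => ?_
  by_contra hl
  apply hcon
  refine Set.mem_iUnion.mpr ⟨l, hn, ?_⟩
  rintro ⟨p, hp, -, hok⟩
  exact hl ⟨p, hp, hok.1, hok.2.1, hok.2.2⟩

end Pool.Agent.N514.TH
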