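import Pool.Agent.N924.TH.Null
import Pool.Agent.R424.MP.Pure

set_option autoImplicit false

/-! # Zilber-Pink in products of modular curves for the members with uniformly distributed parameters -/

namespace Pool.Agent.N514.TH.Pu

open Finset MvPolynomial Pool.Agent.R424.TG Pool.Agent.R424.MP Pool.Agent.W282.ZP
open Pool.Agent.Y152.RP.FamM (NoAtypical SpecialVariety coset)
open Pool.Agent.N666.TM (NullIn flo)
open Pool.Agent.N924.TH (UD HasRoot Good)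

variable {s : ℕ}

/-- the local criterion for one member -/
theorem member {κ : Type} [Finite κ] {n k N m M : ℕ}
    (supp : κ → Finset (((Fin n ⊕ Fin k) ⊕ Fin N) →₀ ℕ))
    (c : κ → (((Fin n ⊕ Fin k) ⊕ Fin N) →₀ ℕ) → Polynomial (MvPolynomial (Fin s) ℤ))
    (h : Fin M → Polynomial (MvPolynomial (Fin s) ℤ))
    (e : Fin M → κ → (((Fin n ⊕ Fin k) ⊕ Fin N) →₀ ℕ) → ℕ)
    (he : ∀ l q, ∀ β ∈ supp q, HasOrd (h l) (c q β) (e l q β)) (hgen : GenericOrders m supp e) :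
    ∃ G : Fin M → Polynomial (MvPolynomial (Fin s) ℤ), (∀ l, CoprimeTo (h l) (G l)) ∧
      ∀ (Γ : Finset ℂ), (∀ γ ∈ Γ, IsAlgebraic ℚ γ) → ∃ P₀ : ℕ,
        ∀ (K : Subfield ℂ) [Countable K], (∀ γ ∈ Γ, γ ∈ K) → ∀ (x : ℤ) (t : Fin s → ℤ),
          (∀ l, ev x t (h l) ≠ 0 ∧ ∃ p : ℕ, p.Prime ∧ P₀ < p ∧ (p : ℤ) ∣ ev x t (h l) ∧
            ¬ (p : ℤ) ∣ ev x t (G l)) →
          NoAtypical (algebraMap (Algebra.adjoin ℤ (Γ : Set ℂ)) ℂ) K m
            (solutions supp (fun q β => ((ev x t (c q β) : ℤ) : ℂ)) :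
              Set (Fin n ⊕ Fin k → ℂ)) := by
  classical
  have := Fintype.ofFinite κ
  let ι := Σ q : κ, {β // β ∈ supp q}
  have hg : ∀ (l : Fin M) (x : ι), ∃ g, c x.1 x.2 = h l ^ e l x.1 x.2 * g ∧ CoprimeTo (h l) g :=
    fun l x => he l x.1 _ x.2.2
  choose g hg1 hg2 using hg
  refine ⟨fun l => ∏ x : ι, g l x, fun l => CoprimeTo.prod _ _ (hg2 l), fun Γ hΓ => ?_⟩
  obtain ⟨D₀, hD₀, halg⟩ := Pool.Agent.W466.ZP.alg_mem (fun z : Γ => (z : ℂ)) fun z => hΓ z z.2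
  refine ⟨D₀, fun K _ hΓK x t hgood => ?_⟩
  have hK : ∀ a : Algebra.adjoin ℤ (Γ : Set ℂ),
      algebraMap (Algebra.adjoin ℤ (Γ : Set ℂ)) ℂ a ∈ K := by
    intro a
    have hle : Algebra.adjoin ℤ (Γ : Set ℂ) ≤ subalgebraOfSubring K.toSubring :=
      Algebra.adjoin_le fun γ hγ => hΓK γ hγ
    exact hle a.2
  refine coreB (algebraMap (Algebra.adjoin ℤ (Γ : Set ℂ)) ℂ) K hK supp _
    fun r cls d L hd hr => ?_
  obtain ⟨l, hl⟩ := hgen r cls d L hd hr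
  refine ⟨e l, hl, fun ρ y hy => ?_⟩
  obtain ⟨h0, p, hp, hpP, hph, hpG⟩ := hgood l
  have hyQ : AlgebraicIndependent ℚ y := hy.restrictScalars (algebraMap ℚ K).injective
  obtain ⟨V, hV, hVx⟩ := place y hyQ hp
  have hp1 : V.valuation (p : ℂ) < 1 := by rwa [ValuationSubring.mem_nonunits_iff] at hV
  have hint : ∀ w : ℤ, V.valuation (w : ℂ) ≤ 1 := fun w => by
    rw [ValuationSubring.valuation_le_one_iff]
    exact intCast_mem V w
  refine ⟨V, V.valuation ((ev x t (h l) : ℤ) : ℂ), ?_, ?_, fun q β hβ => ?_, fun a => ?_, hVx⟩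
  · rw [Valuation.ne_zero_iff]
    exact_mod_cast h0
  · obtain ⟨w, hw⟩ := hph
    rw [hw]
    push_cast
    rw [map_mul]
    exact (mul_le_of_le_one_right' (hint w)).trans_lt hp1
  · have h1 := hg1 l ⟨q, β, hβ⟩
    have h2 : ¬ (p : ℤ) ∣ ev x t (g l ⟨q, β, hβ⟩) := by
      intro h3
      apply hpG
      rw [map_prod]
      exact h3.trans (Finset.dvd_prod_of_mem _ (Finset.mem_univ (⟨q, β, hβ⟩ : ι)))
    have h3 : ev x t (c q β) = ev x t (h l) ^ e l q β * ev x t (g l ⟨q, β, hβ⟩) := by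
      rw [h1, map_mul, map_pow]
    rw [h3]
    push_cast
    rw [map_mul, map_pow, Pool.Agent.W466.ZP.int_unit V hp hV _ h2, mul_one]
  · rw [ValuationSubring.valuation_le_one_iff]
    have hpD : ¬ p ∣ D₀ := fun h1 => by
      have := Nat.le_of_dvd hD₀ h1
      omega
    have hle : Algebra.adjoin ℤ (Γ : Set ℂ) ≤ subalgebraOfSubring V.toSubring :=
      Algebra.adjoin_le fun γ hγ => halg p hp hpD V hV ⟨γ, hγ⟩
    exact hle a.2

/-- the local criterion for one member of a family in `Y(1)^n` -/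
theorem memberC {κ : Type} [Finite κ] {n N m M : ℕ}
    (supp : κ → Finset ((Fin n ⊕ Fin N) →₀ ℕ))
    (c : κ → ((Fin n ⊕ Fin N) →₀ ℕ) → Polynomial (MvPolynomial (Fin s) ℤ))
    (h : Fin M → Polynomial (MvPolynomial (Fin s) ℤ))
    (e : Fin M → κ → ((Fin n ⊕ Fin N) →₀ ℕ) → ℕ)
    (he : ∀ l q, ∀ β ∈ supp q, HasOrd (h l) (c q β) (e l q β)) (hgen : GenericC m supp e) :
    ∃ G : Fin M → Polynomial (MvPolynomial (Fin s) ℤ), (∀ l, CoprimeTo (h l) (G l)) ∧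
      ∀ (Γ : Finset ℂ), (∀ γ ∈ Γ, IsAlgebraic ℚ γ) → ∃ P₀ : ℕ,
        ∀ (K : Subfield ℂ) [Countable K], (∀ γ ∈ Γ, γ ∈ K) → ∀ (x : ℤ) (t : Fin s → ℤ),
          (∀ l, ev x t (h l) ≠ 0 ∧ ∃ p : ℕ, p.Prime ∧ P₀ < p ∧ (p : ℤ) ∣ ev x t (h l) ∧
            ¬ (p : ℤ) ∣ ev x t (G l)) →
          NoAtypicalC (algebraMap (Algebra.adjoin ℤ (Γ : Set ℂ)) ℂ) K m
            (solC supp (fun q β => ((ev x t (c q β) : ℤ) : ℂ))) := by
  classical
  obtain ⟨G, hG, hmem⟩ := member (k := 0) (m := m) (fun q => (supp q).map (renCE n N).toEmbedding)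
    (fun q β => c q ((renCE n N).symm β)) h (fun l q β => e l q ((renCE n N).symm β))
    (fun l q β hβ => by
      obtain ⟨β', hβ', rfl⟩ := Finset.mem_map.1 hβ
      simp only [Equiv.coe_toEmbedding, Equiv.symm_apply_apply]
      exact he l q β' hβ') (fun r cls d L hd hr => by
      obtain ⟨l, hl⟩ := hgen r cls d hd (by omega)
      refine ⟨l, fun w hw hc => ?_⟩
      obtain ⟨h1, h2, -⟩ := hc
      exact hl (w ∘ (renC n N).symm) (fun q => trop_renC _ _ _ (hw q)) ⟨h1, h2⟩)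
  refine ⟨G, hG, fun Γ hΓ => ?_⟩
  obtain ⟨P₀, hP₀⟩ := hmem Γ hΓ
  refine ⟨P₀, fun K _ hΓK x t hgood => ?_⟩
  refine noAtypicalC_of (hP₀ K hΓK x t hgood) ?_
  rintro y ⟨y', hy⟩
  refine ⟨fun j => j.elim0, y', fun q => ?_⟩
  rw [Finset.sum_map]
  rw [← hy q]
  refine Finset.sum_congr rfl fun β _ => ?_
  simp only [Equiv.coe_toEmbedding, Equiv.symm_apply_apply]
  congr 1
  rw [← Equiv.prod_comp (renC n N) (fun i => (Sum.elim y y' : Fin n ⊕ Fin N → ℂ) i ^ β i)]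
  refine Finset.prod_congr rfl fun i _ => ?_
  rw [renC_elim, renCE_apply]

/-- One null set. -/
theorem pureNull {S₁ S₂ : ℕ → Finset ℕ} (hS₁ : ∀ N, S₁ N ⊆ Ioc N (2 * N))
    (hS₂ : ∀ N, S₂ N ⊆ Ioc N (2 * N)) {z : ℕ → ℕ → ℤ} (hz₁ : UD S₁ z) (hz₂ : UD S₂ z) :
    ∃ E : Set ℕ, NullIn S₁ E ∧ NullIn S₂ E ∧
      ∀ (κ : Type) [Finite κ] (s n N m M : ℕ) (j : Fin (s + 1) → ℕ) (_ : Function.Injective j)
        (supp : κ → Finset ((Fin n ⊕ Fin N) →₀ ℕ))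
        (c : κ → ((Fin n ⊕ Fin N) →₀ ℕ) → Polynomial (MvPolynomial (Fin s) ℤ))
        (h : Fin M → Polynomial (MvPolynomial (Fin s) ℤ)) (_ : ∀ l, h l ≠ 0 ∧ HasRoot (h l))
        (e : Fin M → κ → ((Fin n ⊕ Fin N) →₀ ℕ) → ℕ)
        (_ : ∀ l q, ∀ β ∈ supp q, HasOrd (h l) (c q β) (e l q β)) (_ : GenericC m supp e)
        (Γ : Finset ℂ) (_ : ∀ γ ∈ Γ, IsAlgebraic ℚ γ),
        {t : ℕ | t ∉ E ∧ ¬ ∀ (K : Subfield ℂ) [Countable K], (∀ γ ∈ Γ, γ ∈ K) →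
          NoAtypicalC (algebraMap (Algebra.adjoin ℤ (Γ : Set ℂ)) ℂ) K m
            (solC supp (fun q β =>
              ((ev (z (j 0) t) (fun i => z (j i.succ) t) (c q β) : ℤ) : ℂ)))}.Finite := by
  classical
  obtain ⟨E, h1, h2, h3⟩ := Pool.Agent.N924.TH.one_null hS₁ hS₂ hz₁ hz₂
  refine ⟨E, h1, h2, ?_⟩
  intro κ _ s n N m M j hj supp c h hh e he hgen Γ hΓ
  obtain ⟨G, hG, hmem⟩ := memberC supp c h e he hgen
  obtain ⟨P₀, hP₀⟩ := hmem Γ hΓ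
  let d : Fin M → Pool.Agent.N924.TH.Dt := fun l =>
    ⟨s, j, hj, h l, G l, (hh l).1, hG l, (hh l).2, P₀⟩
  refine (Set.finite_iUnion fun l => h3 (d l)).subset ?_
  rintro t ⟨ht, hno⟩
  by_contra hcon
  apply hno
  intro K _ hΓK
  refine hP₀ K hΓK _ _ fun l => ?_
  by_contra hl
  apply hcon
  refine Set.mem_iUnion.mpr ⟨l, ht, ?_⟩
  intro hgood
  exact hl hgood

end Pool.Agent.N514.TH.Pu
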